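import Pool.Agent.H261R3.LN.Stmts

/-! Task RetrN of project LN: the 1-Lipschitz retraction of hyperbolic `(m+1)`-space to a closed
ball. -/

set_option autoImplicit false

open scoped RealInnerProductSpace

namespace Pool.Agent.H261R3.LN.Retr

noncomputable def X0 {m : ℕ} (z : Hyp m) : ℝ := (1 + ‖z.x‖ ^ 2 + z.y ^ 2) / (2 * z.y)
noncomputable def XX {m : ℕ} (z : Hyp m) : EuclideanSpace ℝ (Fin m) := (1 / z.y) • z.x
noncomputable def XL {m : ℕ} (z : Hyp m) : ℝ := (‖z.x‖ ^ 2 + z.y ^ 2 - 1) / (2 * z.y)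

lemma XX_norm {m : ℕ} (z : Hyp m) : ‖XX z‖ ^ 2 = ‖z.x‖ ^ 2 / z.y ^ 2 := by
  have hz := z.pos
  unfold XX
  rw [norm_smul, Real.norm_eq_abs, abs_of_pos (by positivity)]
  field_simp

lemma XX_inner {m : ℕ} (z w : Hyp m) : ⟪XX z, XX w⟫ = ⟪z.x, w.x⟫ / (z.y * w.y) := by
  have hz := z.pos
  have hw := w.pos
  unfold XX
  rw [real_inner_smul_left, real_inner_smul_right]
  field_simp

lemma hyp {m : ℕ} (z : Hyp m) : X0 z ^ 2 = 1 + (‖XX z‖ ^ 2 + XL z ^ 2) := by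
  have hz := z.pos
  rw [XX_norm]
  unfold X0 XL
  field_simp
  ring

lemma one_le_X0 {m : ℕ} (z : Hyp m) : 1 ≤ X0 z := by
  have hz := z.pos
  unfold X0
  rw [le_div_iff₀ (by positivity)]
  nlinarith [sq_nonneg (z.y - 1), sq_nonneg ‖z.x‖]

lemma one_le_arg {m : ℕ} (z w : Hyp m) :
    1 ≤ 1 + (‖z.x - w.x‖ ^ 2 + (z.y - w.y) ^ 2) / (2 * z.y * w.y) := by
  have hz := z.pos
  have hw := w.pos
  have : 0 ≤ (‖z.x - w.x‖ ^ 2 + (z.y - w.y) ^ 2) / (2 * z.y * w.y) := by positivity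
  linarith

lemma hdist_nonneg {m : ℕ} (z w : Hyp m) : 0 ≤ hdist z w :=
  Real.arcosh_nonneg (one_le_arg z w)

lemma hdist_comm {m : ℕ} (z w : Hyp m) : hdist z w = hdist w z := by
  unfold hdist
  have h1 : (z.y - w.y) ^ 2 = (w.y - z.y) ^ 2 := by ring
  have h2 : 2 * z.y * w.y = 2 * w.y * z.y := by ring
  rw [norm_sub_rev, h1, h2]

lemma cosh_eq {m : ℕ} (z w : Hyp m) :
    Real.cosh (hdist z w) = X0 z * X0 w - (⟪XX z, XX w⟫ + XL z * XL w) := by
  have hz := z.pos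
  have hw := w.pos
  unfold hdist
  rw [Real.cosh_arcosh (one_le_arg z w), XX_inner, norm_sub_sq_real]
  unfold X0 XL
  field_simp
  ring

lemma cosh_I {m : ℕ} (z : Hyp m) : Real.cosh (hdist z (origin m)) = X0 z := by
  rw [cosh_eq]
  simp [X0, XX, XL, origin]

lemma exists_pt {m : ℕ} (a : ℝ) (b : EuclideanSpace ℝ (Fin m)) (c : ℝ)
    (h : a ^ 2 = 1 + (‖b‖ ^ 2 + c ^ 2)) (ha : 0 < a) :
    ∃ w : Hyp m, X0 w = a ∧ XX w = b ∧ XL w = c := by
  have h1 : 0 < a - c := by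
    by_contra hcon
    push Not at hcon
    nlinarith [sq_nonneg ‖b‖]
  have h2 : 0 < 1 / (a - c) := by positivity
  have h3 : ‖(1 / (a - c)) • b‖ ^ 2 = ‖b‖ ^ 2 / (a - c) ^ 2 := by
    rw [norm_smul, Real.norm_eq_abs, abs_of_pos h2]
    field_simp
  refine ⟨⟨(1 / (a - c)) • b, 1 / (a - c), h2⟩, ?_, ?_, ?_⟩
  · show (1 + ‖(1 / (a - c)) • b‖ ^ 2 + (1 / (a - c)) ^ 2) / (2 * (1 / (a - c))) = a
    rw [h3]
    field_simp
    nlinarith
  · show (1 / (1 / (a - c))) • ((1 / (a - c)) • b) = b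
    rw [smul_smul]
    have : 1 / (1 / (a - c)) * (1 / (a - c)) = 1 := by field_simp
    rw [this, one_smul]
  · show (‖(1 / (a - c)) • b‖ ^ 2 + (1 / (a - c)) ^ 2 - 1) / (2 * (1 / (a - c))) = c
    rw [h3]
    field_simp
    nlinarith

/-- Cauchy-Schwarz -/
lemma cs (a b c d p q : ℝ) (hp : 0 ≤ p) (hq : 0 ≤ q) (h1 : a ^ 2 + b ^ 2 = p ^ 2)
    (h2 : c ^ 2 + d ^ 2 = q ^ 2) : a * c + b * d ≤ p * q := by
  have h3 : (a * c + b * d) ^ 2 ≤ (p * q) ^ 2 := by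
    rw [mul_pow, ← h1, ← h2]
    nlinarith [sq_nonneg (a * d - b * c)]
  exact (abs_le_of_sq_le_sq' h3 (by positivity)).2

lemma cs' {m : ℕ} (z w : Hyp m) (p q : ℝ) (hp : 0 ≤ p) (hq : 0 ≤ q)
    (h1 : ‖XX z‖ ^ 2 + XL z ^ 2 = p ^ 2) (h2 : ‖XX w‖ ^ 2 + XL w ^ 2 = q ^ 2) :
    ⟪XX z, XX w⟫ + XL z * XL w ≤ p * q := by
  have h3 := real_inner_le_norm (XX z) (XX w)
  have h4 := cs _ _ _ _ p q hp hq h1 h2
  linarith

lemma ineq_both (x w c s n m e : ℝ) (hx : c ≤ x) (hw : c ≤ w) (hc : 1 ≤ c) (hs : 0 ≤ s)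
    (hcs : c ^ 2 = 1 + s ^ 2) (hn : 0 < n) (hm : 0 < m) (hn2 : x ^ 2 = 1 + n ^ 2)
    (hm2 : w ^ 2 = 1 + m ^ 2) (he : e ≤ n * m) :
    c * c - (s / n) * (s / m) * e ≤ x * w - e := by
  have hsn : s ≤ n := by nlinarith
  have hsm : s ≤ m := by nlinarith
  have h1 : n * m ≤ x * w - 1 := by
    have h2 : (n * m) ^ 2 ≤ (x * w - 1) ^ 2 := by
      rw [mul_pow]
      have e1 : n ^ 2 = x ^ 2 - 1 := by linarith
      have e2 : m ^ 2 = w ^ 2 - 1 := by linarith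
      rw [e1, e2]
      nlinarith [sq_nonneg (x - w)]
    have h3 : 0 ≤ x * w - 1 := by nlinarith
    exact (abs_le_of_sq_le_sq' h2 h3).2
  have h4 : (s / n) * (s / m) ≤ 1 := by
    rw [div_mul_div_comm, div_le_one (by positivity)]
    nlinarith
  have h5 : (1 - (s / n) * (s / m)) * e ≤ (1 - (s / n) * (s / m)) * (n * m) :=
    mul_le_mul_of_nonneg_left he (by linarith)
  have h6 : (1 - (s / n) * (s / m)) * (n * m) = n * m - s ^ 2 := by
    field_simp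
  nlinarith

lemma ineq_one (x w c s n m e : ℝ) (hx : c ≤ x) (hw : w ≤ c) (hw1 : 1 ≤ w) (_hc : 1 ≤ c)
    (hs : 0 ≤ s) (hcs : c ^ 2 = 1 + s ^ 2) (hn : 0 < n) (hm : 0 ≤ m) (hn2 : x ^ 2 = 1 + n ^ 2)
    (hm2 : w ^ 2 = 1 + m ^ 2) (he : e ≤ n * m) :
    c * w - (s / n) * e ≤ x * w - e := by
  have hsn : s ≤ n := by nlinarith
  have h4 : s / n ≤ 1 := by
    rw [div_le_one hn]; exact hsn
  have h5 : (1 - s / n) * e ≤ (1 - s / n) * (n * m) :=
    mul_le_mul_of_nonneg_left he (by linarith)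
  have h6 : (1 - s / n) * (n * m) = (n - s) * m := by
    field_simp
  have h9 : m * c ≤ w * s := by
    have h8 : (m * c) ^ 2 ≤ (w * s) ^ 2 := by
      rw [mul_pow, mul_pow, hcs, hm2]
      have : m ^ 2 ≤ s ^ 2 := by nlinarith
      nlinarith
    exact (abs_le_of_sq_le_sq' h8 (by positivity)).2
  have h7 : m * x ≤ w * n := by
    have h8 : (m * x) ^ 2 ≤ (w * n) ^ 2 := by
      rw [mul_pow, mul_pow, hn2, hm2]
      have : m ^ 2 ≤ n ^ 2 := by nlinarith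
      nlinarith
    exact (abs_le_of_sq_le_sq' h8 (by positivity)).2
  have h10 : (n - s) * (n + s) = (x - c) * (x + c) := by nlinarith
  have h11 : m * (x + c) ≤ w * (n + s) := by nlinarith
  have h12 : (n - s) * m * (n + s) ≤ (x - c) * w * (n + s) := by
    have : (x - c) * (m * (x + c)) ≤ (x - c) * (w * (n + s)) :=
      mul_le_mul_of_nonneg_left h11 (by linarith)
    nlinarith
  have h13 : (n - s) * m ≤ (x - c) * w := le_of_mul_le_mul_right h12 (by linarith)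
  nlinarith

lemma cosh_le {a b : ℝ} (ha : 0 ≤ a) (hb : 0 ≤ b) (h : Real.cosh a ≤ Real.cosh b) : a ≤ b := by
  rw [Real.cosh_le_cosh, abs_of_nonneg ha, abs_of_nonneg hb] at h
  exact h

theorem taskRetrN : TaskRetrN := by
  intro m R hR
  set c := Real.cosh R with hc
  set s := Real.sinh R with hs
  have hc1 : 1 ≤ c := Real.one_le_cosh R
  have hs0 : 0 ≤ s := Real.sinh_nonneg_iff.2 hR
  have hcs : c ^ 2 = 1 + s ^ 2 := by
    have := Real.cosh_sq R
    linarith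
  have hin : ∀ z : Hyp m, hdist z (origin m) ≤ R ↔ X0 z ≤ c := by
    intro z
    rw [← cosh_I, hc, Real.cosh_le_cosh, abs_of_nonneg (hdist_nonneg _ _), abs_of_nonneg hR]
  -- the norm
  have hN : ∀ z : Hyp m, ∃ n : ℝ, 0 ≤ n ∧ X0 z ^ 2 = 1 + n ^ 2 ∧ ‖XX z‖ ^ 2 + XL z ^ 2 = n ^ 2 := by
    intro z
    refine ⟨Real.sqrt (‖XX z‖ ^ 2 + XL z ^ 2), Real.sqrt_nonneg _, ?_, ?_⟩
    · rw [Real.sq_sqrt (by positivity)]; exact hyp z
    · rw [Real.sq_sqrt (by positivity)]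
  choose n hn0 hn2 hn3 using hN
  have hnpos : ∀ z : Hyp m, c < X0 z → 0 < n z := by
    intro z hz
    rcases (hn0 z).lt_or_eq with h | h
    · exact h
    · exfalso
      have := hn2 z
      rw [← h] at this
      nlinarith
  have hP : ∀ z : Hyp m, ∃ w : Hyp m, (X0 z ≤ c → w = z) ∧
      (c < X0 z → X0 w = c ∧ XX w = (s / n z) • XX z ∧ XL w = s / n z * XL z) := by
    intro z
    by_cases h : X0 z ≤ c
    · exact ⟨z, fun _ => rfl, fun h' => absurd h (not_le.2 h')⟩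
    · push Not at h
      obtain ⟨w, h0, h1, h2⟩ := exists_pt c ((s / n z) • XX z) (s / n z * XL z) (by
        have h3 : ‖(s / n z) • XX z‖ ^ 2 + (s / n z * XL z) ^ 2 = s ^ 2 := by
          have h4 := hnpos z h
          have h5 := hn3 z
          rw [norm_smul, Real.norm_eq_abs, mul_pow, sq_abs, mul_pow, ← mul_add, h5, div_pow]
          field_simp
        rw [h3, hcs]) (by linarith)
      exact ⟨w, fun h' => absurd h (not_lt.2 h'), fun _ => ⟨h0, h1, h2⟩⟩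
  choose ρ hρ1 hρ2 using hP
  refine ⟨ρ, ?_, ?_, ?_⟩
  · intro z
    rw [hin]
    by_cases h : X0 z ≤ c
    · rw [hρ1 z h]; exact h
    · push Not at h
      rw [(hρ2 z h).1]
  · intro z hz
    exact hρ1 z ((hin z).1 hz)
  · -- one outside
    have one : ∀ z w : Hyp m, c < X0 z → X0 w ≤ c → hdist (ρ z) (ρ w) ≤ hdist z w := by
      intro z w hz hw
      refine cosh_le (hdist_nonneg _ _) (hdist_nonneg _ _) ?_
      obtain ⟨a0, a1, a2⟩ := hρ2 z hz
      rw [hρ1 w hw, cosh_eq, cosh_eq, a0, a1, a2, real_inner_smul_left]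
      have := ineq_one (X0 z) (X0 w) c s (n z) (n w) (⟪XX z, XX w⟫ + XL z * XL w) hz.le hw
        (one_le_X0 w) hc1 hs0 hcs (hnpos z hz) (hn0 w) (hn2 z) (hn2 w)
        (cs' z w _ _ (hn0 z) (hn0 w) (hn3 z) (hn3 w))
      calc c * X0 w - (s / n z * ⟪XX z, XX w⟫ + s / n z * XL z * XL w)
          = c * X0 w - s / n z * (⟪XX z, XX w⟫ + XL z * XL w) := by ring
        _ ≤ _ := this
    intro z w
    by_cases hz : X0 z ≤ c
    · by_cases hw : X0 w ≤ c
      · rw [hρ1 z hz, hρ1 w hw]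
      · push Not at hw
        have := one w z hw hz
        rwa [hdist_comm (ρ w), hdist_comm w] at this
    · push Not at hz
      by_cases hw : X0 w ≤ c
      · exact one z w hz hw
      · push Not at hw
        refine cosh_le (hdist_nonneg _ _) (hdist_nonneg _ _) ?_
        obtain ⟨a0, a1, a2⟩ := hρ2 z hz
        obtain ⟨b0, b1, b2⟩ := hρ2 w hw
        rw [cosh_eq, cosh_eq, a0, a1, a2, b0, b1, b2, real_inner_smul_left,
          real_inner_smul_right]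
        have := ineq_both (X0 z) (X0 w) c s (n z) (n w) (⟪XX z, XX w⟫ + XL z * XL w) hz.le hw.le
          hc1 hs0 hcs (hnpos z hz) (hnpos w hw) (hn2 z) (hn2 w)
          (cs' z w _ _ (hn0 z) (hn0 w) (hn3 z) (hn3 w))
        calc c * c - (s / n z * (s / n w * ⟪XX z, XX w⟫) + s / n z * XL z * (s / n w * XL w))
            = c * c - s / n z * (s / n w) * (⟪XX z, XX w⟫ + XL z * XL w) := by ring
          _ ≤ _ := this

end Pool.Agent.H261R3.LN.Retr

namespace Pool.Agent.H261R3.LN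

theorem taskRetrN : TaskRetrN := Retr.taskRetrN

end Pool.Agent.H261R3.LN
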